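import Pool.Agent.FRE.Stmts

/-!
# Squad FRE, row BOG: the lemma of Bogolyubov
-/

set_option autoImplicit false

namespace Pool.Agent.FRE.H5

open Pool.Agent.FRE

variable {N : ℕ} [NeZero N]

/-- the Fourier transform of the set `B` -/
noncomputable def S (B : Finset (ZMod N)) (r : ZMod N) : ℂ :=
  ∑ b ∈ B, (ZMod.stdAddChar (r * b) : ℂ)

theorem orth (u : ZMod N) :
    ∑ r : ZMod N, (ZMod.stdAddChar (r * u) : ℂ) = if u = 0 then (N : ℂ) else 0 := by
  have h := AddChar.sum_mulShift (ψ := (ZMod.stdAddChar : AddChar (ZMod N) ℂ)) u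
    (ZMod.isPrimitive_stdAddChar N)
  simpa using h

theorem sq_eq (B : Finset (ZMod N)) (r : ZMod N) :
    ((Complex.normSq (S B r) : ℝ) : ℂ) =
      ∑ a ∈ B, ∑ c ∈ B, (ZMod.stdAddChar (r * (a - c)) : ℂ) := by
  rw [← Complex.mul_conj, S, map_sum, Finset.sum_mul_sum]
  refine Finset.sum_congr rfl fun a _ => Finset.sum_congr rfl fun c _ => ?_
  rw [← AddChar.map_neg_eq_conj, ← AddChar.map_add_eq_mul]
  congr 1
  ring

theorem pars (B : Finset (ZMod N)) :
    ∑ r : ZMod N, Complex.normSq (S B r) = N * B.card := by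
  have h : ((∑ r : ZMod N, Complex.normSq (S B r) : ℝ) : ℂ) = ((N * B.card : ℝ) : ℂ) := by
    push_cast
    calc ∑ r : ZMod N, ((Complex.normSq (S B r) : ℝ) : ℂ)
        = ∑ r : ZMod N, ∑ a ∈ B, ∑ c ∈ B, (ZMod.stdAddChar (r * (a - c)) : ℂ) :=
          Finset.sum_congr rfl fun r _ => sq_eq B r
      _ = ∑ a ∈ B, ∑ c ∈ B, ∑ r : ZMod N, (ZMod.stdAddChar (r * (a - c)) : ℂ) := by
          rw [Finset.sum_comm]
          refine Finset.sum_congr rfl fun a _ => ?_
          rw [Finset.sum_comm]
      _ = ∑ a ∈ B, ∑ c ∈ B, if a = c then (N : ℂ) else 0 := by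
          simp_rw [orth, sub_eq_zero]
      _ = ∑ a ∈ B, (N : ℂ) := by
          refine Finset.sum_congr rfl fun a ha => ?_
          rw [Finset.sum_ite_eq, if_pos ha]
      _ = (N : ℂ) * B.card := by
          rw [Finset.sum_const, nsmul_eq_mul, mul_comm]
  exact_mod_cast h

theorem four (B : Finset (ZMod N)) (x : ZMod N)
    (hx : ∀ a ∈ B, ∀ b ∈ B, ∀ c ∈ B, ∀ e ∈ B, x ≠ a + b - c - e) :
    ∑ r : ZMod N, ((Complex.normSq (S B r) : ℝ) : ℂ) ^ 2 *
      (ZMod.stdAddChar (r * (-x)) : ℂ) = 0 := by
  calc ∑ r : ZMod N, ((Complex.normSq (S B r) : ℝ) : ℂ) ^ 2 *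
      (ZMod.stdAddChar (r * (-x)) : ℂ)
      = ∑ r : ZMod N, ∑ a ∈ B, ∑ c ∈ B, ∑ b ∈ B, ∑ e ∈ B,
          (ZMod.stdAddChar (r * ((a - c) + (b - e) - x)) : ℂ) := by
        refine Finset.sum_congr rfl fun r _ => ?_
        rw [sq_eq, sq, Finset.sum_mul, Finset.sum_mul]
        refine Finset.sum_congr rfl fun a _ => ?_
        rw [Finset.sum_mul, Finset.sum_mul]
        refine Finset.sum_congr rfl fun c _ => ?_
        rw [Finset.mul_sum, Finset.sum_mul]
        refine Finset.sum_congr rfl fun b _ => ?_
        rw [Finset.mul_sum, Finset.sum_mul]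
        refine Finset.sum_congr rfl fun e _ => ?_
        rw [← AddChar.map_add_eq_mul, ← AddChar.map_add_eq_mul]
        congr 1
        ring
    _ = ∑ a ∈ B, ∑ c ∈ B, ∑ b ∈ B, ∑ e ∈ B, ∑ r : ZMod N,
          (ZMod.stdAddChar (r * ((a - c) + (b - e) - x)) : ℂ) := by
        rw [Finset.sum_comm]
        refine Finset.sum_congr rfl fun a _ => ?_
        rw [Finset.sum_comm]
        refine Finset.sum_congr rfl fun c _ => ?_
        rw [Finset.sum_comm]
        refine Finset.sum_congr rfl fun b _ => ?_
        rw [Finset.sum_comm]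
    _ = 0 := by
        refine Finset.sum_eq_zero fun a ha => Finset.sum_eq_zero fun c hc =>
          Finset.sum_eq_zero fun b hb => Finset.sum_eq_zero fun e he => ?_
        rw [orth, if_neg]
        intro h
        exact hx a ha b hb c hc e he (by linear_combination -h)

/-- **BOG** -/
theorem bog : BogStmt := by
  classical
  intro N _ B α hα hB
  have hN : (0 : ℝ) < N := by exact_mod_cast Nat.pos_of_ne_zero (NeZero.ne N)
  have hb : (0 : ℝ) < B.card := lt_of_lt_of_le (by positivity) hB
  set b : ℝ := (B.card : ℝ) with hbdef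
  set T : ℝ := b ^ 3 / (2 * N) with hT
  have hTpos : 0 < T := by positivity
  have hf0 : ∀ r, 0 ≤ Complex.normSq (S B r) := fun r => Complex.normSq_nonneg _
  refine ⟨Finset.univ.filter fun r => T ≤ Complex.normSq (S B r), ?_, ?_⟩
  · -- the size of the spectrum
    have h1 : ((Finset.univ.filter fun r => T ≤ Complex.normSq (S B r)).card : ℝ) * T ≤
        N * b := by
      calc ((Finset.univ.filter fun r => T ≤ Complex.normSq (S B r)).card : ℝ) * T
          = ∑ _r ∈ Finset.univ.filter fun r => T ≤ Complex.normSq (S B r), T := by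
            rw [Finset.sum_const, nsmul_eq_mul]
        _ ≤ ∑ r ∈ Finset.univ.filter fun r => T ≤ Complex.normSq (S B r),
              Complex.normSq (S B r) :=
            Finset.sum_le_sum fun r hr => (Finset.mem_filter.1 hr).2
        _ ≤ ∑ r, Complex.normSq (S B r) :=
            Finset.sum_le_sum_of_subset_of_nonneg (Finset.filter_subset _ _)
              fun r _ _ => hf0 r
        _ = N * b := pars B
    have h2 : N * b = (2 * (N / b) ^ 2) * T := by
      rw [hT]
      field_simp
    rw [h2] at h1
    have h3 := le_of_mul_le_mul_right h1 hTpos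
    refine h3.trans ?_
    rw [div_pow, mul_div_assoc']
    rw [div_le_div_iff₀ (by positivity) (by positivity)]
    have h4 : (α * N) ^ 2 ≤ b ^ 2 := pow_le_pow_left₀ (by positivity) hB 2
    nlinarith [h4]
  · intro x hx
    by_contra hcon
    push Not at hcon
    have h4 := congrArg Complex.re (four B x hcon)
    rw [Complex.re_sum, Complex.zero_re] at h4
    simp_rw [← Complex.ofReal_pow, Complex.re_ofReal_mul] at h4
    have key : ∀ r : ZMod N, (if r = 0 then b ^ 4 else 0) - T * Complex.normSq (S B r) ≤
        Complex.normSq (S B r) ^ 2 * (ZMod.stdAddChar (r * (-x)) : ℂ).re := by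
      intro r
      have hre1 : -1 ≤ (ZMod.stdAddChar (r * (-x)) : ℂ).re := by
        have h5 := Complex.abs_re_le_norm (ZMod.stdAddChar (r * (-x)) : ℂ)
        rw [AddChar.norm_apply] at h5
        exact (abs_le.1 h5).1
      rcases eq_or_ne r 0 with rfl | hr
      · rw [if_pos rfl]
        have h5 : Complex.normSq (S B 0) = b ^ 2 := by
          simp [S, Complex.normSq_natCast, hbdef, sq]
        have h6 : (ZMod.stdAddChar ((0 : ZMod N) * (-x)) : ℂ).re = 1 := by simp
        rw [h5, h6]
        nlinarith [mul_nonneg hTpos.le (sq_nonneg b)]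
      · rw [if_neg hr]
        by_cases hR : T ≤ Complex.normSq (S B r)
        · have h5 : 4 * |(r * x).valMinAbs| < N := hx r (by simp [hR])
          have h6 : 0 ≤ (ZMod.stdAddChar (r * (-x)) : ℂ).re := by
            have h7 : (ZMod.stdAddChar (r * (-x)) : ℂ) =
                starRingEnd ℂ (ZMod.stdAddChar (r * x) : ℂ) := by
              rw [← AddChar.map_neg_eq_conj]
              congr 1
              ring
            rw [h7, Complex.conj_re]
            have h8 : (ZMod.stdAddChar (r * x) : ℂ) =
                Complex.exp (((2 * Real.pi * ((r * x).valMinAbs : ℝ) / N : ℝ) : ℂ) *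
                  Complex.I) := by
              conv_lhs => rw [← ZMod.coe_valMinAbs (r * x)]
              rw [ZMod.stdAddChar_coe]
              congr 1
              push_cast
              ring
            rw [h8, Complex.exp_ofReal_mul_I_re]
            have h9 : |((r * x).valMinAbs : ℝ)| < N / 4 := by
              have h10 : (4 : ℝ) * |((r * x).valMinAbs : ℝ)| < N := by exact_mod_cast h5
              linarith
            have h11 : |2 * Real.pi * ((r * x).valMinAbs : ℝ) / N| ≤ Real.pi / 2 := by
              rw [abs_div, abs_mul, abs_of_pos (by positivity : 0 < 2 * Real.pi),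
                abs_of_pos hN, div_le_iff₀ hN]
              nlinarith [Real.pi_pos]
            exact Real.cos_nonneg_of_neg_pi_div_two_le_of_le (abs_le.1 h11).1 (abs_le.1 h11).2
          have h7 : 0 ≤ T * Complex.normSq (S B r) := mul_nonneg hTpos.le (hf0 r)
          have h8 : 0 ≤ Complex.normSq (S B r) ^ 2 * (ZMod.stdAddChar (r * (-x)) : ℂ).re :=
            mul_nonneg (sq_nonneg _) h6
          linarith
        · push Not at hR
          have h7 := hf0 r
          have h8 : Complex.normSq (S B r) ^ 2 ≤ T * Complex.normSq (S B r) := by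
            nlinarith
          nlinarith [mul_le_mul_of_nonneg_left hre1 (sq_nonneg (Complex.normSq (S B r)))]
    have hsum := Finset.sum_le_sum fun r (_ : r ∈ (Finset.univ : Finset (ZMod N))) => key r
    rw [h4, Finset.sum_sub_distrib, Finset.sum_ite_eq', if_pos (Finset.mem_univ _),
      ← Finset.mul_sum, pars] at hsum
    have h5 : T * (N * b) = b ^ 4 / 2 := by
      rw [hT]
      field_simp
    have h6 : 0 < b ^ 4 := by positivity
    have h7 : T * ((N : ℝ) * (B.card : ℝ)) = b ^ 4 / 2 := h5
    linarith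

end Pool.Agent.FRE.H5
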